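import Pool.Agent.W_448st0_h96.SzA
import Pool.Agent.W_448fin_h16.FnT

/-!
# Final assembly (MP_448cb3_co): STEP 0, no component with two stars: THE LEAVES AND THE END
-/

namespace Pool.Agent.GaussPoset.EK

set_option linter.unusedSectionVars false

open Finset Win St Polynomial Wd Win.W4

universe u

section defs

variable (P : Type u) [Fintype P] [PartialOrder P] [DecidableEq P]

/-- INPUT of step 0: [DL], at least four sites, the doubled end closed -/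
def HClosedQ : Prop :=
  ∀ (r i : ℕ) (K : Finset P) (psi : P → P) (t : Tops P) (m : ℕ) (x : ℕ → P) (c : ℕ → ℤ) (β : ℤ)
    (lo hi : ℕ → ℕ) (e : ℕ → ℕ → P), 5 ≤ i + 1 → i + 1 ≠ 8 → i + 1 ≠ 13 → CB P r (i + 1) →
    Red P (i + 1) K psi → RowB P (i + 1) t m x c β → Cp.Comp (i + 1) (t : P) lo hi e →
    Shape (i + 1) lo hi → 3 ≤ m → IsDL m c β → (uc (x 0)).card = 2 → Q0 i K t

/-- INPUT of step 0: [DL], four sites, both ends single (the late words ending with OO) -/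
def HOpen3Q : Prop :=
  ∀ (r i : ℕ) (K : Finset P) (psi : P → P) (t : Tops P) (x : ℕ → P) (c : ℕ → ℤ) (β : ℤ)
    (lo hi : ℕ → ℕ) (e : ℕ → ℕ → P) (a : ℕ), 5 ≤ i + 1 → i + 1 ≠ 8 → CB P r (i + 1) →
    Red P (i + 1) K psi → RowB P (i + 1) t 3 x c β → Cp.Comp (i + 1) (t : P) lo hi e →
    Shape (i + 1) lo hi → LateC (i + 1) a lo hi → IsDL 3 c β → (uc (x 0)).card = 1 →
    (uc (x 3)).card = 1 → UE (i + 1) (cext (i + 1 + 1) (topOf : P → Tops P) t) x 2 = ∅ →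
    (∀ k, k ≤ 3 → x k = e (i + 1) (lo (i + 1) + k)) → Q0 i K t

/-- INPUT of step 0: [DL] at a fold end -/
def HFoldQ : Prop :=
  ∀ (r i : ℕ) (K : Finset P) (psi : P → P) (t : Tops P) (m : ℕ) (x : ℕ → P) (c : ℕ → ℤ) (β : ℤ)
    (lo hi : ℕ → ℕ) (e : ℕ → ℕ → P), 1 ≤ i → CB P r (i + 1) → Red P (i + 1) K psi →
    RowB P (i + 1) t m x c β → Cp.Comp (i + 1) (t : P) lo hi e → StairShape (i + 1) lo hi →
    (i + 1) % 2 = 0 → 3 ≤ m → x 0 = e (i + 1) ((i + 1) / 2) → IsDL m c β → Q0 i K t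

/-- INPUT of step 0: three sites with a defect -/
def HTwoQ : Prop :=
  ∀ (r i : ℕ) (K : Finset P) (psi : P → P) (t : Tops P) (x : ℕ → P) (c : ℕ → ℤ) (β : ℤ)
    (lo hi : Tops P → ℕ → ℕ) (e : Tops P → ℕ → ℕ → P), 5 ≤ i + 1 → i + 1 ≠ 8 → HCCu P →
    HTail P → CB P r (i + 1) → Red P (i + 1) K psi →
    (∀ t : Tops P, Cp.Comp (i + 1) (t : P) (lo t) (hi t) (e t)) →
    (∀ t : Tops P, Shape (i + 1) (lo t) (hi t)) → RowB P (i + 1) t 2 x c β →
    ¬ (β = 0 ∧ ∀ k, k < 2 → c k = 0) → Q0 i K t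

/-- INPUT of step 0: two stars -/
def HSixQ : Prop :=
  ∀ (r i : ℕ) (K : Finset P) (psi : P → P) (t : Tops P) (m : ℕ) (x : ℕ → P) (c : ℕ → ℤ) (β : ℤ)
    (lo hi : Tops P → ℕ → ℕ) (e : Tops P → ℕ → ℕ → P), 5 ≤ i + 1 → i + 1 ≠ 8 → HCCu P →
    HTail P → CB P r (i + 1) → Red P (i + 1) K psi →
    (∀ t : Tops P, Cp.Comp (i + 1) (t : P) (lo t) (hi t) (e t)) →
    (∀ t : Tops P, Shape (i + 1) (lo t) (hi t)) → RowB P (i + 1) t m x c β → Pat6 m c β →
    0 < Ut i t ∨ (0 ≤ Ut i t ∧ v3 (i + 1) t ≠ 0) ∨ (-8 < Ut i t ∧ LightJ i K t)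

/-- THE INPUTS OF STEP 0 -/
structure Leaves0 : Prop where
  nat : HNat P
  closed : HClosedQ P
  open3 : HOpen3Q P
  ring3 : HRing3 P
  fold : HFoldQ P
  two : HTwoQ P
  six : HSixQ P

end defs

variable {P : Type u} [Fintype P] [PartialOrder P] [DecidableEq P] {r i j : ℕ}

variable {m : ℕ} {x : ℕ → P} {c : ℕ → ℤ} {β : ℤ} {t : Tops P}

variable {K : Finset P} {psi : P → P} {Y V : P → P}

lemma q_nonneg (v : ℤ) : 0 ≤ 2 * v + 4 * v ^ 2 := by
  rcases lt_or_ge v 0 with h | h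
  · nlinarith
  · positivity

lemma Q0_of_Vt (h : 0 ≤ Vt i t) : Q0 i K t := by
  left
  unfold Qt
  have := q_nonneg (v3 (i + 1) t)
  linarith

section main

variable (hL : Leaves0 P) (h : CB P r (i + 1)) (h5 : 5 ≤ i + 1) (h8 : i + 1 ≠ 8)
  (h13 : i + 1 ≠ 13) (R : Red P (i + 1) K psi)

include hL h h5 h8 h13 R

/-- EVERY PART WITHOUT TWO STARS -/
theorem CB.q0_all (hC : HCCu P) (hT : HTail P) {lo hi : Tops P → ℕ → ℕ}
    {e : Tops P → ℕ → ℕ → P} (C : ∀ t : Tops P, Cp.Comp (i + 1) (t : P) (lo t) (hi t) (e t))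
    (hS : ∀ t : Tops P, Shape (i + 1) (lo t) (hi t)) (t : Tops P)
    (h6 : ∀ (m : ℕ) (x : ℕ → P) (c : ℕ → ℤ) (β : ℤ),
      RowB P (i + 1) t m x c β → ¬ Pat6 m c β) : Q0 i K t := by
  classical
  have hn := h.nj
  have hi1 : 1 ≤ i := by omega
  have natc : ∀ (m : ℕ) (x : ℕ → P) (c : ℕ → ℤ) (β : ℤ), RowB P (i + 1) t m x c β → β = 0 →
      (∀ k, k < m → c k = 0) → Q0 i K t := fun m x c β B hβ hc =>
    Q0_of_Vt (hL.nat r i t m x c β hi1 h B hβ hc)
  obtain ⟨m, x, c, β, B⟩ := NJ.rowB hn (by omega) t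
  rcases Nat.lt_or_ge m 3 with hm | hm
  · by_cases hnat : β = 0 ∧ ∀ k, k < m → c k = 0
    · exact natc m x c β B hnat.1 hnat.2
    have hm2 : m = 2 := by
      rcases B.pat with ⟨p1, p2⟩ | ⟨p0, -⟩ | ⟨p0, -⟩ | ⟨p0, -⟩ | ⟨p0, -⟩ | ⟨p0, -⟩ | ⟨p0, -⟩ | ⟨p0, -⟩
      · exact absurd ⟨p1, p2⟩ hnat
      all_goals omega
    subst hm2
    exact hL.two r i K psi t x c β lo hi e h5 h8 hC hT h R C hS B hnat
  rcases B.cases hn hm with hN | ⟨x', c', B', hB'⟩
  · obtain ⟨g1, g2⟩ := B.nat_zero hn hN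
    exact natc m x c β B (g2 (by omega)) g1
  have hd : Dft m c' β := by
    rcases hB' with ⟨c0, c1, hb, h2 | h2⟩ | ⟨hb, c0, c1⟩
    · exact Or.inl ⟨c0, c1, hb, h2⟩
    · exact absurd h2 (h6 m x' c' β B')
    · exact Or.inr ⟨hb, c0, c1⟩
  rcases CB.shape2 hC h (by omega) C hS B' hm with ⟨g1, g2⟩ | ⟨a, L⟩
  · rcases hd with ⟨c0, c1, hb, h2⟩ | ⟨hb, -⟩
    · have hI : IsDL m c' β := ⟨hb, c0, c1, h2⟩
      rcases g1 c0 with g3 | ⟨S, g4, g5⟩
      · exact hL.closed r i K psi t m x' c' β (lo t) (hi t) (e t) h5 h8 h13 h R B' (C t)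
          (hS t) hm hI g3
      · exact hL.fold r i K psi t m x' c' β (lo t) (hi t) (e t) hi1 h R B' (C t) S g4 hm g5 hI
    · exact absurd hb g2
  · rcases late_class hT h (by omega) C hS B' hm L hd with ⟨hI, g3⟩ | ⟨hI, hm3, g1, g2, g3, g4⟩ |
      ⟨hm3, hb, c0, c1, hp, hr⟩
    · exact hL.closed r i K psi t m x' c' β (lo t) (hi t) (e t) h5 h8 h13 h R B' (C t)
          (hS t) hm hI g3
    · subst hm3
      exact hL.open3 r i K psi t x' c' β (lo t) (hi t) (e t) a h5 h8 h R B' (C t) (hS t) L hI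
        g1 g2 g3 g4
    · subst hm3
      obtain ⟨f1, f2⟩ := B'.ends (by rw [hb]; norm_num)
      exact Q0_of_Vt (hL.ring3 r i t x' c' β (lo t) (hi t) (e t) a hi1 h B' (C t) (hS t) L hb c0 c1
        f1 f2 hp hr).le

omit h8 h13 in
/-- A ROTATED ROW has a positive value -/
theorem CB.ring_pos (hC : HCCu P) (hT : HTail P) {lo hi : Tops P → ℕ → ℕ}
    {e : Tops P → ℕ → ℕ → P} (C : ∀ t : Tops P, Cp.Comp (i + 1) (t : P) (lo t) (hi t) (e t))
    (hS : ∀ t : Tops P, Shape (i + 1) (lo t) (hi t)) (B : RowB P (i + 1) t m x c β)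
    (hm : 3 ≤ m) (hb1 : β = 1) : 0 < Qt i t := by
  classical
  have hn := h.nj
  have hi1 : 1 ≤ i := by omega
  rcases B.cases hn hm with hN | ⟨x', c', B', hB'⟩
  · obtain ⟨g1, g2⟩ := B.nat_zero hn hN
    have := g2 (by omega)
    omega
  have hd : Dft m c' β := by
    rcases hB' with ⟨c0, c1, hb, h2 | h2⟩ | ⟨hb, c0, c1⟩
    · exact Or.inl ⟨c0, c1, hb, h2⟩
    · omega
    · exact Or.inr ⟨hb, c0, c1⟩
  rcases CB.shape2 hC h (by omega) C hS B' hm with ⟨g1, g2⟩ | ⟨a, L⟩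
  · exact absurd hb1 g2
  · rcases late_class hT h (by omega) C hS B' hm L hd with ⟨hI, g3⟩ | ⟨hI, hm3, g1, g2, g3, g4⟩ |
      ⟨hm3, hb, c0, c1, hp, hr⟩
    · have := hI.1
      omega
    · have := hI.1
      omega
    · subst hm3
      obtain ⟨f1, f2⟩ := B'.ends (by rw [hb]; norm_num)
      have h1 := hL.ring3 r i t x' c' β (lo t) (hi t) (e t) a hi1 h B' (C t) (hS t) L hb c0 c1
        f1 f2 hp hr
      have h2 := q_nonneg (v3 (i + 1) t)
      unfold Qt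
      linarith

end main

/-- a row with two stars has at least six sites -/
lemma RowB.six_le (h : NJ P r j) (hj : 2 ≤ j) (B : RowB P j t m x c β) (hp : Pat6 m c β) :
    5 ≤ j := by
  obtain ⟨lo, hi, e, C⟩ := Cp.comp_exists h.g.H t.2 h.g.hr h.g.good
  obtain ⟨l1, -⟩ := B.orient h hj C
  have h1 : ∀ k, k ≤ j → hi k ≤ k := by
    intro k
    induction k with
    | zero => exact fun _ => C.hi_zero.le
    | succ k ih =>
      intro hk
      have := ih (by omega)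
      have := C.hi_step k (by omega)
      omega
  have h2 := h1 j le_rfl
  have h3 := hp.1
  omega

/-- STEP 0: no component with two stars -/
theorem no6_of (hC : HCCu P) (hT : HTail P) (hL : Leaves0 P) :
    ∀ r j, 2 ≤ j → j ≠ 8 → j ≠ 13 → CB P r j → No6 P j := by
  classical
  intro r j hj h8 h13 h t m x c β B hp
  have h5 := B.six_le h.nj hj hp
  obtain ⟨i, rfl⟩ : ∃ i, j = i + 1 := ⟨j - 1, by omega⟩
  have hi1 : 1 ≤ i := by omega
  have hn := h.nj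
  obtain ⟨lo, hi, e, C, hS⟩ := hsh (P := P) r (i + 1) hn.g
  obtain ⟨K, psi, R⟩ := exists_red P (i + 1)
  obtain ⟨Y, V, hY⟩ := exists_YW P (i + 1)
  have six : ∀ (t : Tops P) (m : ℕ) (x : ℕ → P) (c : ℕ → ℤ) (β : ℤ),
      RowB P (i + 1) t m x c β → Pat6 m c β →
      0 < Ut i t + G0 i K Y t ∨ (0 ≤ Ut i t + G0 i K Y t ∧ v3 (i + 1) t ≠ 0) := by
    intro t m x c β B hp
    have h2 := NJ.G0_nonneg hn hi1 R hY t
    rcases hL.six r i K psi t m x c β lo hi e h5 h8 hC hT h R C hS B hp with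
      h1 | ⟨h1, h3⟩ | ⟨h1, h3⟩
    · left
      linarith
    · right
      exact ⟨by linarith, h3⟩
    · left
      have := NJ.G0_light hn hi1 R hY h3
      linarith
  have hpos : ∀ t : Tops P, 0 ≤ Ut i t + G0 i K Y t := by
    intro t
    by_cases h6 : ∀ (m : ℕ) (x : ℕ → P) (c : ℕ → ℤ) (β : ℤ),
        RowB P (i + 1) t m x c β → ¬ Pat6 m c β
    · exact NJ.Q0_nonneg hn hi1 R hY h6 (CB.q0_all hL h h5 h8 h13 R hC hT C hS t h6)
    · push Not at h6
      obtain ⟨m, x, c, β, B, hp⟩ := h6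
      rcases six t m x c β B hp with h1 | ⟨h1, -⟩
      · exact h1.le
      · exact h1
  have ha8 : (0 : ℤ) ≤ Wst.a8 := by
    unfold Wst
    norm_num
  have hz : ∀ t : Tops P, Ut i t + G0 i K Y t = 0 := fun t => by
    have := (Pn.nj_end hn rfl hi1 (NJ.lv_pos hn hi1 t) R Wst ha8 (g0 i K Y)
      (fun z hz => (hY.sum_g0 hz).le) hpos).1 t
    rwa [Lm_g0] at this
  -- no bad double
  have hbad : ∀ y : P, ¬ BadR P (i + 1) y := by
    rintro y ⟨m', x', c', β', B', hm', hb', -⟩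
    have h1 := CB.ring_pos hL h h5 R hC hT C hS B' hm' hb'
    have h2 := NJ.G0_nonneg hn hi1 R hY (topOf y)
    have hs : Small (i + 1) (topOf : P → Tops P) (topOf y) := by
      rcases B'.small h.nj.g.H h.nj.split with h3 | h3
      · exact h3
      · have := h3.2.1
        omega
    have h3 := hz (topOf y)
    rw [NJ.Ut_small hn hi1 R hs] at h3
    linarith
  rcases six t m x c β B hp with h1 | ⟨-, h1⟩
  · have := hz t
    linarith
  · have h2 := ((NJ.w3_zero (K := K) (psi := psi) hn (by omega) R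
      (fun z y v _ _ hb => absurd hb (hbad y))).1 t).1
    exact h1 h2

end Pool.Agent.GaussPoset.EK
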