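import Pool.Agent.W_448st0_h96.SzE
import Pool.Agent.W_448fg_h53.FgO

/-!
# Final assembly (MP_448cb3_co): STEP 0 at the level 8, WITH COUNTING: THE LEAVES AND THE END
-/

namespace Pool.Agent.GaussPoset.EK

set_option linter.unusedSectionVars false

open Finset Win St Polynomial Wd Win.W4

universe u

section defs

variable (P : Type u) [Fintype P] [PartialOrder P] [DecidableEq P]

/-- INPUT of step 0, level 8: naturals -/
def HNatA : Prop :=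
  ∀ (r i : ℕ) (t : Tops P) (m : ℕ) (x : ℕ → P) (c : ℕ → ℤ) (β : ℤ), i + 1 = 8 →
    CB P r (i + 1) → RowB P (i + 1) t m x c β → β = 0 → (∀ k, k < m → c k = 0) → 0 ≤ Ua i t

/-- INPUT of step 0, level 8: [DL], at least four sites, the doubled end closed -/
def HClosedA : Prop :=
  ∀ (r i : ℕ) (K : Finset P) (psi : P → P) (t : Tops P) (m : ℕ) (x : ℕ → P) (c : ℕ → ℤ) (β : ℤ)
    (lo hi : ℕ → ℕ) (e : ℕ → ℕ → P), i + 1 = 8 → CB P r (i + 1) →
    Red P (i + 1) K psi → RowB P (i + 1) t m x c β → Cp.Comp (i + 1) (t : P) lo hi e →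
    Shape (i + 1) lo hi → 3 ≤ m → IsDL m c β → (uc (x 0)).card = 2 →
    0 ≤ Ua i t ∨ (-4 ≤ Ua i t ∧ GoodJ (i + 1) t)

/-- INPUT of step 0, level 8: [DL], at least four sites, at a fold end -/
def HFoldA : Prop :=
  ∀ (r i : ℕ) (t : Tops P) (m : ℕ) (x : ℕ → P) (c : ℕ → ℤ)
    (lo hi : ℕ → ℕ) (e : ℕ → ℕ → P), i + 1 = 8 → FoldDL P r i t m x c lo hi e →
    0 ≤ Ua i t ∨ (-4 ≤ Ua i t ∧ GoodJ (i + 1) t)

/-- INPUT of step 0, level 8: [DL], four sites, both ends single (the late words ending with OO) -/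
def HOpen3A : Prop :=
  ∀ (r i : ℕ) (K : Finset P) (psi : P → P) (t : Tops P) (x : ℕ → P) (c : ℕ → ℤ) (β : ℤ)
    (lo hi : ℕ → ℕ) (e : ℕ → ℕ → P) (a : ℕ), i + 1 = 8 → CB P r (i + 1) →
    Red P (i + 1) K psi → RowB P (i + 1) t 3 x c β → Cp.Comp (i + 1) (t : P) lo hi e →
    Shape (i + 1) lo hi → LateC (i + 1) a lo hi → IsDL 3 c β → (uc (x 0)).card = 1 →
    (uc (x 3)).card = 1 → UE (i + 1) (cext (i + 1 + 1) (topOf : P → Tops P) t) x 2 = ∅ →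
    (∀ k, k ≤ 3 → x k = e (i + 1) (lo (i + 1) + k)) →
    0 ≤ Ua i t ∨ (-4 ≤ Ua i t ∧ GoodJ (i + 1) t)

/-- INPUT of step 0, level 8: the rotated rows with four sites -/
def HRing3A : Prop :=
  ∀ (r i : ℕ) (K : Finset P) (psi : P → P) (t : Tops P) (x : ℕ → P) (c : ℕ → ℤ)
    (β : ℤ) (lo hi : ℕ → ℕ) (e : ℕ → ℕ → P) (a : ℕ), i + 1 = 8 → CB P r (i + 1) →
    Red P (i + 1) K psi → RowB P (i + 1) t 3 x c β →
    Cp.Comp (i + 1) (t : P) lo hi e → Shape (i + 1) lo hi → LateC (i + 1) a lo hi →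
    β = 1 → c 0 = -1 → (∀ k, 1 ≤ k → k < 3 → c k = 0) → (uc (x 0)).card = 1 →
    (uc (x 3)).card = 1 → pen (x 0) ≠ ∅ → (∀ k, k ≤ 3 → x k = e (i + 1) (hi (i + 1) - k)) →
    0 ≤ Ua i t ∨ (-4 ≤ Ua i t ∧ GoodJ (i + 1) t)

/-- INPUT of step 0, level 8: three sites with a defect -/
def HTwoA : Prop :=
  ∀ (r i : ℕ) (K : Finset P) (psi : P → P) (t : Tops P) (x : ℕ → P) (c : ℕ → ℤ)
    (β : ℤ) (lo hi : Tops P → ℕ → ℕ) (e : Tops P → ℕ → ℕ → P), i + 1 = 8 → HCCu P →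
    HTail P → CB P r (i + 1) → Red P (i + 1) K psi →
    (∀ t : Tops P, Cp.Comp (i + 1) (t : P) (lo t) (hi t) (e t)) →
    (∀ t : Tops P, Shape (i + 1) (lo t) (hi t)) → RowB P (i + 1) t 2 x c β →
    ¬ (β = 0 ∧ ∀ k, k < 2 → c k = 0) → Qa i K t

/-- INPUT of step 0, level 8: two stars -/
def HSixA : Prop :=
  ∀ (r i : ℕ) (t : Tops P) (m : ℕ) (x : ℕ → P) (c : ℕ → ℤ) (β : ℤ), i + 1 = 8 →
    CB P r (i + 1) → RowB P (i + 1) t m x c β → Pat6 m c β → 20 ≤ Ua i t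

/-- INPUT of step 0: THE COUNT -/
def HCount : Prop :=
  ∀ (r j : ℕ) (K : Finset P) (psi : P → P), 2 ≤ j → NJ P r j → Red P j K psi →
    ∀ A B : Finset (Tops P), (∀ t ∈ A, Sz j K t) → (∀ t, Six j t → t ∈ B) →
      (∀ t ∈ B, Six j t) → A.card ≤ 4 * B.card

/-- THE INPUTS OF STEP 0 AT THE LEVEL 8 -/
structure LeavesA : Prop where
  nat : HNatA P
  closed : HClosedA P
  fold : HFoldA P
  open3 : HOpen3A P
  ring3 : HRing3A P
  two : HTwoA P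
  six : HSixA P
  count : HCount P

end defs

variable {P : Type u} [Fintype P] [PartialOrder P] [DecidableEq P] {r i j : ℕ}

variable {m : ℕ} {x : ℕ → P} {c : ℕ → ℤ} {β : ℤ} {t : Tops P}

variable {K : Finset P} {psi : P → P} {Y V : P → P}

lemma Qa_of (h1 : 0 ≤ Ua i t ∨ (-4 ≤ Ua i t ∧ GoodJ (i + 1) t)) : Qa i K t := by
  rcases h1 with h1 | ⟨h1, h2⟩
  · exact Or.inl h1
  · exact Or.inr ⟨h1, Or.inl h2⟩

section main

variable (hL : LeavesA P) (h : CB P r (i + 1)) (h8 : i + 1 = 8)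
  (R : Red P (i + 1) K psi)

include hL h h8 R

/-- EVERY PART WITHOUT TWO STARS -/
theorem CB.qa_all (hC : HCCu P) (hT : HTail P) {lo hi : Tops P → ℕ → ℕ}
    {e : Tops P → ℕ → ℕ → P} (C : ∀ t : Tops P, Cp.Comp (i + 1) (t : P) (lo t) (hi t) (e t))
    (hS : ∀ t : Tops P, Shape (i + 1) (lo t) (hi t)) (t : Tops P)
    (h6 : ¬ Six (i + 1) t) : Qa i K t := by
  classical
  have hn := h.nj
  have hi1 : 1 ≤ i := by omega
  have natc : ∀ (m : ℕ) (x : ℕ → P) (c : ℕ → ℤ) (β : ℤ), RowB P (i + 1) t m x c β → β = 0 →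
      (∀ k, k < m → c k = 0) → Qa i K t := fun m x c β B hβ hc =>
    Or.inl (hL.nat r i t m x c β h8 h B hβ hc)
  obtain ⟨m, x, c, β, B⟩ := NJ.rowB hn (by omega) t
  rcases Nat.lt_or_ge m 3 with hm | hm
  · by_cases hnat : β = 0 ∧ ∀ k, k < m → c k = 0
    · exact natc m x c β B hnat.1 hnat.2
    have hm2 : m = 2 := by
      rcases B.pat with ⟨p1, p2⟩ | ⟨p0, -⟩ | ⟨p0, -⟩ | ⟨p0, -⟩ | ⟨p0, -⟩ | ⟨p0, -⟩ | ⟨p0, -⟩ | ⟨p0, -⟩
      · exact absurd ⟨p1, p2⟩ hnat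
      all_goals omega
    subst hm2
    exact hL.two r i K psi t x c β lo hi e h8 hC hT h R C hS B hnat
  rcases B.cases hn hm with hN | ⟨x', c', B', hB'⟩
  · obtain ⟨g1, g2⟩ := B.nat_zero hn hN
    exact natc m x c β B (g2 (by omega)) g1
  have hd : Dft m c' β := by
    rcases hB' with ⟨c0, c1, hb, h2 | h2⟩ | ⟨hb, c0, c1⟩
    · exact Or.inl ⟨c0, c1, hb, h2⟩
    · exact absurd ⟨m, x', c', β, B', h2⟩ h6
    · exact Or.inr ⟨hb, c0, c1⟩
  rcases CB.shape2 hC h (by omega) C hS B' hm with ⟨g1, g2⟩ | ⟨a, L⟩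
  · rcases hd with ⟨c0, c1, hb, h2⟩ | ⟨hb, -⟩
    · have hI : IsDL m c' β := ⟨hb, c0, c1, h2⟩
      rcases g1 c0 with g3 | ⟨S, g4, g5⟩
      · exact Qa_of (hL.closed r i K psi t m x' c' β (lo t) (hi t) (e t)
          h8 h R B' (C t) (hS t) hm hI g3)
      · subst hb
        have F : FoldDL P r i t m x' c' (lo t) (hi t) (e t) :=
          ⟨hn, hi1, B', C t, S, g4, hm, g5, c0, c1, h2⟩
        exact Qa_of (hL.fold r i t m x' c' (lo t) (hi t) (e t) h8 F)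
    · exact absurd hb g2
  · rcases late_class hT h (by omega) C hS B' hm L hd with ⟨hI, g3⟩ | ⟨hI, hm3, g1, g2, g3, g4⟩ |
      ⟨hm3, hb, c0, c1, hp, hr⟩
    · exact Qa_of (hL.closed r i K psi t m x' c' β (lo t) (hi t) (e t) h8 h R B' (C t) (hS t)
        hm hI g3)
    · subst hm3
      exact Qa_of (hL.open3 r i K psi t x' c' β (lo t) (hi t) (e t) a h8 h R B' (C t) (hS t) L hI
          g1 g2 g3 g4)
    · subst hm3
      obtain ⟨f1, f2⟩ := B'.ends (by rw [hb]; norm_num)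
      exact Qa_of (hL.ring3 r i K psi t x' c' β (lo t) (hi t) (e t) a h8 h R B' (C t) (hS t)
        L hb c0 c1 f1 f2 hp hr)

end main

/-- STEP 0 at the level 8: no component with two stars -/
theorem no6_count (hC : HCCu P) (hT : HTail P) (hL : LeavesA P) :
    ∀ r j, j = 8 → CB P r j → No6 P j := by
  classical
  intro r j h8 h t m x c β B hp
  obtain ⟨i, rfl⟩ : ∃ i, j = i + 1 := ⟨j - 1, by omega⟩
  have hi1 : 1 ≤ i := by omega
  have hn := h.nj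
  obtain ⟨lo, hi, e, C, hS⟩ := hsh (P := P) r (i + 1) hn.g
  obtain ⟨K, psi, R⟩ := exists_red P (i + 1)
  obtain ⟨Y, V, hY⟩ := exists_YW P (i + 1)
  exact NJ.no_six hn hi1 R hY (hL.count r (i + 1) K psi (by omega) hn R)
    (fun t ⟨m, x, c, β, B, hp⟩ => hL.six r i t m x c β h8 h B hp)
    (fun t h6 => CB.qa_all hL h h8 R hC hT C hS t h6) t ⟨m, x, c, β, B, hp⟩

/-- STEP 0 -/
theorem hno6_count (hC : HCCu P) (hT : HTail P) (hL : Leaves0 P) (hE : LeavesA P)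
    (h13 : ∀ r j : ℕ, j = 13 → CB P r j → No6 P j) :
    ∀ r j : ℕ, 2 ≤ j → CB P r j → No6 P j := by
  intro r j hj h
  by_cases h8 : j = 8
  · exact no6_count hC hT hE r j h8 h
  by_cases h1 : j = 13
  · exact h13 r j h1 h
  exact no6_of hC hT hL r j hj h8 h1 h

end Pool.Agent.GaussPoset.EK
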