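import Pool.Agent.W_448st0_h96.SzC
import Pool.Agent.W_448st0_h96.SzB
import Pool.Agent.W_448j6_h22.KbL
import Pool.Agent.W_448fg_h53.FgO

/-!
# Final assembly (MP_448cb3_co): STEP 0 at the level 8: THE LEAVES AND THE END
-/

namespace Pool.Agent.GaussPoset.EK

set_option linter.unusedSectionVars false

open Finset Win St Polynomial Wd Win.W4

universe u

section pay

variable {P : Type u} [Fintype P] [PartialOrder P] [DecidableEq P] {r i j : ℕ}

variable {m : ℕ} {x : ℕ → P} {c : ℕ → ℤ} {β : ℤ} {t : Tops P}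

variable {K : Finset P} {psi : P → P} {Y V : P → P}

variable (h : NJ P r (i + 1)) (hi1 : 1 ≤ i) (R : Red P (i + 1) K psi) (hY : YW (i + 1) Y V)

include h hi1 R hY

/-- a natural part pays nothing -/
theorem NJ.pay_nat (B : RowB P (i + 1) t m x c β) (h0 : ∀ k, k < m → c k = 0) (hb : β = 0) :
    PA (i + 1) K Y V t = 0 ∧ PC (i + 1) K Y V t = 0 :=
  NJ.pay_zero h hi1 R hY B (Or.inr hb) fun q _ _ => by
    rw [sa_nat h R (B.nat_of h h0 hb)]
    norm_num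

/-- the pattern [DL] with three sites pays nothing -/
theorem NJ.pay_dl2 (B : RowB P (i + 1) t 2 x c β) (hβ : β = 0) (c0 : c 0 = 1) (c1 : c 1 = -1) :
    PA (i + 1) K Y V t = 0 ∧ PC (i + 1) K Y V t = 0 := by
  refine NJ.pay_zero h hi1 R hY B (Or.inr hβ) fun q _ _ => ?_
  obtain ⟨w, v, D⟩ := NJ.dl2 h (by omega) R B hβ c0 c1
  rw [sa_K5 h R D.Q]
  split_ifs <;> norm_num

/-- the pattern R with three sites pays nothing -/
theorem NJ.pay_r2 (B : RowB P (i + 1) t 2 x c β) (hβ : β = 1) (c0 : c 0 = -1) (c1 : c 1 = 0) :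
    PA (i + 1) K Y V t = 0 ∧ PC (i + 1) K Y V t = 0 := by
  refine NJ.pay_zero h hi1 R hY B (Or.inl le_rfl) fun q _ _ => ?_
  obtain ⟨w, v, D⟩ := NJ.r2 h (by omega) R B hβ c0 c1
  rw [sa_K5 h R D.Q]
  split_ifs <;> norm_num

/-- the pattern [DL] with at least four sites pays nothing -/
theorem NJ.pay_dl (B : RowB P (i + 1) t m x c β) (hm : 3 ≤ m) (hd : IsDL m c β) :
    PA (i + 1) K Y V t = 0 ∧ PC (i + 1) K Y V t = 0 := by
  refine NJ.pay_zero h hi1 R hY B (Or.inr hd.1) fun q _ _ => ?_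
  obtain ⟨w, v, D⟩ := NJ.dlg h (by omega) R B hm hd.1 hd.2.1 hd.2.2.1 hd.2.2.2
  rw [sa_K5 h R D.Q]
  split_ifs <;> norm_num

/-- the pattern R with four sites: the part pays at most for two joins at its bad double -/
theorem NJ.pay_ring (B : RowB P (i + 1) t 3 x c β) (hβ : β = 1) (c0 : c 0 = -1) (c1 : c 1 = 0)
    (c2 : c 2 = 0) :
    PC (i + 1) K Y V t = 0 ∧ PA (i + 1) K Y V t ≤ 2 ∧
      (PA (i + 1) K Y V t = 2 → ∃ y0, y0 ⋖ x 2 ∧ y0 ⋖ x 3 ∧
        ∀ z, z ⋖ y0 → z ∈ K2.Z2 (i + 1) (topOf : P → Tops P)) := by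
  obtain ⟨x', hx'⟩ : ∃ x' : ℕ → P, x' = fun k => if k = 4 then x 0 else x k := ⟨_, rfl⟩
  have hxk : ∀ k, k ≤ 3 → x' k = x k := by
    intro k hk
    rw [hx']
    show (if k = 4 then x 0 else x k) = x k
    rw [if_neg (by omega)]
  have hx4 : x' 4 = x' 0 := by
    rw [hxk 0 (by omega), hx']
    show (if 4 = 4 then x 0 else x 4) = x 0
    rw [if_pos rfl]
  have B' := B.congr hxk
  obtain ⟨w, v, D⟩ := NJ.rg h (by omega) R B' hβ c0 c1 c2 hx4
  obtain ⟨y0, g1, g2, -, h0⟩ := NJ.bad_uniq h R B' hβ c0 D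
  obtain ⟨a1, a2⟩ := NJ.PA_le h (by omega) R hY h0
  rw [hxk 2 (by omega)] at g1
  rw [hxk 3 (by omega)] at g2
  refine ⟨?_, a1, fun q => ⟨y0, g1, g2, a2 q⟩⟩
  unfold PC
  refine sum_eq_zero fun z hz => ?_
  rw [mem_filter] at hz
  obtain ⟨q, hq, h1, -, h2⟩ := NJ.PZ_V h (by omega) R hY hz.1 hz.2 B'
  have h3 := (mem_PZ.1 hz.1).2.2
  rw [sa_K5 h R D.Q] at h2
  have h4 : sz (i + 1) K V z ≤ 1 := by
    rw [h2]
    split_ifs <;> norm_num
  omega

end pay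

section defs

variable (P : Type u) [Fintype P] [PartialOrder P] [DecidableEq P]

/-- INPUT of step 0, level 8: naturals -/
def HNatE : Prop :=
  ∀ (r i : ℕ) (t : Tops P) (m : ℕ) (x : ℕ → P) (c : ℕ → ℤ) (β : ℤ), i + 1 = 8 →
    CB P r (i + 1) → RowB P (i + 1) t m x c β → β = 0 → (∀ k, k < m → c k = 0) → 0 ≤ Ue i t

/-- INPUT of step 0, level 8: [DL], at least four sites, the doubled end closed -/
def HClosedE : Prop :=
  ∀ (r i : ℕ) (K : Finset P) (psi : P → P) (t : Tops P) (m : ℕ) (x : ℕ → P) (c : ℕ → ℤ) (β : ℤ)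
    (lo hi : ℕ → ℕ) (e : ℕ → ℕ → P), i + 1 = 8 → CB P r (i + 1) →
    Red P (i + 1) K psi → RowB P (i + 1) t m x c β → Cp.Comp (i + 1) (t : P) lo hi e →
    Shape (i + 1) lo hi → 3 ≤ m → IsDL m c β → (uc (x 0)).card = 2 →
    0 ≤ Ue i t ∨ (-4 ≤ Ue i t ∧ GoodJ (i + 1) t)

/-- INPUT of step 0, level 8: [DL], four sites, both ends single (the late words ending with OO) -/
def HOpen3E : Prop :=
  ∀ (r i : ℕ) (K : Finset P) (psi : P → P) (t : Tops P) (x : ℕ → P) (c : ℕ → ℤ) (β : ℤ)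
    (lo hi : ℕ → ℕ) (e : ℕ → ℕ → P) (a : ℕ), i + 1 = 8 → CB P r (i + 1) →
    Red P (i + 1) K psi → RowB P (i + 1) t 3 x c β → Cp.Comp (i + 1) (t : P) lo hi e →
    Shape (i + 1) lo hi → LateC (i + 1) a lo hi → IsDL 3 c β → (uc (x 0)).card = 1 →
    (uc (x 3)).card = 1 → UE (i + 1) (cext (i + 1 + 1) (topOf : P → Tops P) t) x 2 = ∅ →
    (∀ k, k ≤ 3 → x k = e (i + 1) (lo (i + 1) + k)) →
    0 ≤ Ue i t ∨ (-4 ≤ Ue i t ∧ GoodJ (i + 1) t)

/-- INPUT of step 0, level 8: the rotated rows with four sites (for `pay_ring`: four times the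
number of the joins to be paid) -/
def HRing3E : Prop :=
  ∀ (r i : ℕ) (K : Finset P) (psi : P → P) (Y V : P → P) (t : Tops P) (x : ℕ → P) (c : ℕ → ℤ)
    (β : ℤ) (lo hi : ℕ → ℕ) (e : ℕ → ℕ → P) (a : ℕ), i + 1 = 8 → CB P r (i + 1) →
    Red P (i + 1) K psi → YW (i + 1) Y V → RowB P (i + 1) t 3 x c β →
    Cp.Comp (i + 1) (t : P) lo hi e → Shape (i + 1) lo hi → LateC (i + 1) a lo hi →
    β = 1 → c 0 = -1 → (∀ k, 1 ≤ k → k < 3 → c k = 0) → (uc (x 0)).card = 1 →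
    (uc (x 3)).card = 1 → pen (x 0) ≠ ∅ → (∀ k, k ≤ 3 → x k = e (i + 1) (hi (i + 1) - k)) →
    4 * PA (i + 1) K Y V t ≤ Ue i t ∨
      (4 * PA (i + 1) K Y V t ≤ Ue i t + 4 ∧ GoodJ (i + 1) t)

/-- INPUT of step 0, level 8: three sites with a defect -/
def HTwoE : Prop :=
  ∀ (r i : ℕ) (K : Finset P) (psi : P → P) (Y V : P → P) (t : Tops P) (x : ℕ → P) (c : ℕ → ℤ)
    (β : ℤ) (lo hi : Tops P → ℕ → ℕ) (e : Tops P → ℕ → ℕ → P), i + 1 = 8 → HCCu P →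
    HTail P → CB P r (i + 1) → Red P (i + 1) K psi → YW (i + 1) Y V →
    (∀ t : Tops P, Cp.Comp (i + 1) (t : P) (lo t) (hi t) (e t)) →
    (∀ t : Tops P, Shape (i + 1) (lo t) (hi t)) → RowB P (i + 1) t 2 x c β →
    ¬ (β = 0 ∧ ∀ k, k < 2 → c k = 0) → Qe i K Y V t

/-- INPUT of step 0, level 8: two stars -/
def HSixE : Prop :=
  ∀ (r i : ℕ) (K : Finset P) (psi : P → P) (Y V : P → P) (t : Tops P) (m : ℕ) (x : ℕ → P)
    (c : ℕ → ℤ) (β : ℤ) (lo hi : ℕ → ℕ) (e : ℕ → ℕ → P), i + 1 = 8 → CB P r (i + 1) →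
    Red P (i + 1) K psi → YW (i + 1) Y V → RowB P (i + 1) t m x c β →
    Cp.Comp (i + 1) (t : P) lo hi e → Shape (i + 1) lo hi → Pat6 m c β →
    4 * PC (i + 1) K Y V t < Ue i t

/-- THE INPUTS OF STEP 0 AT THE LEVEL 8 -/
structure LeavesE : Prop where
  nat : HNatE P
  closed : HClosedE P
  open3 : HOpen3E P
  ring3 : HRing3E P
  two : HTwoE P
  six : HSixE P

end defs

variable {P : Type u} [Fintype P] [PartialOrder P] [DecidableEq P] {r i j : ℕ}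

variable {m : ℕ} {x : ℕ → P} {c : ℕ → ℤ} {β : ℤ} {t : Tops P}

variable {K : Finset P} {psi : P → P} {Y V : P → P}

section main

variable (hL : LeavesE P) (h : CB P r (i + 1)) (h8 : i + 1 = 8)
  (R : Red P (i + 1) K psi) (hY : YW (i + 1) Y V)

include hL h h8 R hY

/-- a part which pays nothing -/
lemma Qe_of_free (h0 : PA (i + 1) K Y V t = 0 ∧ PC (i + 1) K Y V t = 0)
    (h1 : 0 ≤ Ue i t ∨ (-4 ≤ Ue i t ∧ GoodJ (i + 1) t)) : Qe i K Y V t := by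
  unfold Qe
  rw [h0.1, h0.2]
  rcases h1 with h1 | ⟨h1, h2⟩
  · left
    linarith
  · right
    exact ⟨by linarith, h2⟩

/-- EVERY PART WITHOUT TWO STARS -/
theorem CB.qe_all (hC : HCCu P) (hT : HTail P) {lo hi : Tops P → ℕ → ℕ}
    {e : Tops P → ℕ → ℕ → P} (C : ∀ t : Tops P, Cp.Comp (i + 1) (t : P) (lo t) (hi t) (e t))
    (hS : ∀ t : Tops P, Shape (i + 1) (lo t) (hi t)) (t : Tops P)
    (h6 : ∀ (m : ℕ) (x : ℕ → P) (c : ℕ → ℤ) (β : ℤ),
      RowB P (i + 1) t m x c β → ¬ Pat6 m c β) : Qe i K Y V t := by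
  classical
  have hn := h.nj
  have hi1 : 1 ≤ i := by omega
  have natc : ∀ (m : ℕ) (x : ℕ → P) (c : ℕ → ℤ) (β : ℤ), RowB P (i + 1) t m x c β → β = 0 →
      (∀ k, k < m → c k = 0) → Qe i K Y V t := fun m x c β B hβ hc =>
    Qe_of_free hL h h8 R hY (NJ.pay_nat hn hi1 R hY B hc hβ)
      (Or.inl (hL.nat r i t m x c β h8 h B hβ hc))
  obtain ⟨m, x, c, β, B⟩ := NJ.rowB hn (by omega) t
  rcases Nat.lt_or_ge m 3 with hm | hm
  · by_cases hnat : β = 0 ∧ ∀ k, k < m → c k = 0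
    · exact natc m x c β B hnat.1 hnat.2
    have hm2 : m = 2 := by
      rcases B.pat with ⟨p1, p2⟩ | ⟨p0, -⟩ | ⟨p0, -⟩ | ⟨p0, -⟩ | ⟨p0, -⟩ | ⟨p0, -⟩ | ⟨p0, -⟩ | ⟨p0, -⟩
      · exact absurd ⟨p1, p2⟩ hnat
      all_goals omega
    subst hm2
    exact hL.two r i K psi Y V t x c β lo hi e h8 hC hT h R hY C hS B hnat
  rcases B.cases hn hm with hN | ⟨x', c', B', hB'⟩
  · obtain ⟨g1, g2⟩ := B.nat_zero hn hN
    exact natc m x c β B (g2 (by omega)) g1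
  have hd : Dft m c' β := by
    rcases hB' with ⟨c0, c1, hb, h2 | h2⟩ | ⟨hb, c0, c1⟩
    · exact Or.inl ⟨c0, c1, hb, h2⟩
    · exact absurd h2 (h6 m x' c' β B')
    · exact Or.inr ⟨hb, c0, c1⟩
  rcases CB.shape2 hC h (by omega) C hS B' hm with ⟨g1, g2⟩ | ⟨a, L⟩
  · rcases hd with ⟨c0, c1, hb, h2⟩ | ⟨hb, -⟩
    · have hI : IsDL m c' β := ⟨hb, c0, c1, h2⟩
      have hpay := NJ.pay_dl hn hi1 R hY B' hm hI
      rcases g1 c0 with g3 | ⟨S, g4, g5⟩
      · exact Qe_of_free hL h h8 R hY hpay (hL.closed r i K psi t m x' c' β (lo t) (hi t) (e t)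
          h8 h R B' (C t) (hS t) hm hI g3)
      · refine Qe_of_free hL h h8 R hY hpay (Or.inl ?_)
        subst hb
        have F : FoldDL P r i t m x' c' (lo t) (hi t) (e t) :=
          ⟨hn, hi1, B', C t, S, g4, hm, g5, c0, c1, h2⟩
        exact F.v8_all
    · exact absurd hb g2
  · rcases late_class hT h (by omega) C hS B' hm L hd with ⟨hI, g3⟩ | ⟨hI, hm3, g1, g2, g3, g4⟩ |
      ⟨hm3, hb, c0, c1, hp, hr⟩
    · exact Qe_of_free hL h h8 R hY (NJ.pay_dl hn hi1 R hY B' hm hI)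
        (hL.closed r i K psi t m x' c' β (lo t) (hi t) (e t) h8 h R B' (C t) (hS t) hm hI g3)
    · subst hm3
      exact Qe_of_free hL h h8 R hY (NJ.pay_dl hn hi1 R hY B' hm hI)
        (hL.open3 r i K psi t x' c' β (lo t) (hi t) (e t) a h8 h R B' (C t) (hS t) L hI
          g1 g2 g3 g4)
    · subst hm3
      obtain ⟨f1, f2⟩ := B'.ends (by rw [hb]; norm_num)
      have h1 := hL.ring3 r i K psi Y V t x' c' β (lo t) (hi t) (e t) a h8 h R hY B' (C t) (hS t)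
        L hb c0 c1 f1 f2 hp hr
      have h2 := (NJ.pay_ring hn hi1 R hY B' hb c0 (c1 1 le_rfl (by omega))
        (c1 2 (by omega) (by omega))).1
      unfold Qe
      rw [h2, add_zero]
      exact h1

end main

/-- STEP 0 at the level 8: no component with two stars -/
theorem no6_eight (hC : HCCu P) (hT : HTail P) (hL : LeavesE P) :
    ∀ r j, j = 8 → CB P r j → No6 P j := by
  classical
  intro r j h8 h t m x c β B hp
  obtain ⟨i, rfl⟩ : ∃ i, j = i + 1 := ⟨j - 1, by omega⟩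
  have hi1 : 1 ≤ i := by omega
  have hn := h.nj
  obtain ⟨lo, hi, e, C, hS⟩ := hsh (P := P) r (i + 1) hn.g
  obtain ⟨K, psi, R⟩ := exists_red P (i + 1)
  obtain ⟨Y, V, hY⟩ := exists_YW P (i + 1)
  have six : ∀ (t : Tops P) (m : ℕ) (x : ℕ → P) (c : ℕ → ℤ) (β : ℤ),
      RowB P (i + 1) t m x c β → Pat6 m c β → 0 < Ue i t + Ge i K Y V t := by
    intro t m x c β B hp
    have h1 := hL.six r i K psi Y V t m x c β (lo t) (hi t) (e t) h8 h R hY B (C t) (hS t) hp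
    have h2 := (NJ.Ge_ge hn hi1 R hY t).1
    have h3 : PA (i + 1) K Y V t = 0 := NJ.PA_zero hn (by omega) R hY fun y hy ht => by
      have e1 := (B.bad hn (by omega) hy ht).2
      have e2 := hp.2.1
      omega
    rw [h3, zero_add] at h2
    linarith
  have hpos : ∀ t : Tops P, 0 ≤ Ue i t + Ge i K Y V t := by
    intro t
    by_cases h6 : ∀ (m : ℕ) (x : ℕ → P) (c : ℕ → ℤ) (β : ℤ),
        RowB P (i + 1) t m x c β → ¬ Pat6 m c β
    · exact NJ.Qe_nonneg hn hi1 R hY (CB.qe_all hL h h8 R hY hC hT C hS t h6)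
    · push Not at h6
      obtain ⟨m, x, c, β, B, hp⟩ := h6
      exact (six t m x c β B hp).le
  have ha8 : (0 : ℤ) ≤ Wei.a8 := by
    unfold Wei
    norm_num
  have hz := (Pn.nj_end hn rfl hi1 (NJ.lv_pos hn hi1 t) R Wei ha8 (ge i K Y V)
    (fun z hz => (hY.sum_ge hz).le) hpos).1 t
  rw [Lm_ge] at hz
  have := six t m x c β B hp
  linarith

/-- STEP 0 -/
theorem hno6 (hC : HCCu P) (hT : HTail P) (hL : Leaves0 P) (hE : LeavesE P)
    (h13 : ∀ r j : ℕ, j = 13 → CB P r j → No6 P j) :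
    ∀ r j : ℕ, 2 ≤ j → CB P r j → No6 P j := by
  intro r j hj h
  by_cases h8 : j = 8
  · exact no6_eight hC hT hE r j h8 h
  by_cases h1 : j = 13
  · exact h13 r j h1 h
  exact no6_of hC hT hL r j hj h8 h1 h

end Pool.Agent.GaussPoset.EK
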