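import Pool.Agent.W_448fin_h16.FnS
import Pool.Agent.W_448kr_h10.KrA
import Pool.Agent.W_448pb_h63.PbD

/-!
# Final assembly (MP_448cb3_co): STEP 0, no component with two stars: THE CHARGES

`j = i + 1`.  The functional `Wst` is `- L31 + 9 L52 - 2 L62 - 4 L83 - 6 L10,4 - w21 - 4 L42 + 14 w32 +
2 (w32 ^ 2 - 2 w64)`.  A join of a double and a single element costs (twice)
`8 (1 + Ek 1 + Ek 2 + Ek 3) - 8 [N5s] ≥ 0`; everything goes to the part of the double element.
-/

namespace Pool.Agent.GaussPoset.EK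

set_option linter.unusedSectionVars false

open Finset Win St Polynomial Wd Win.W4

universe u

/-- the weights of step 0 -/
def Wst : Pn.Wt := ⟨-1, 9, 1, 4, 3, -1, 2, 14, 2⟩

section defs

variable {P : Type u} [Fintype P] [PartialOrder P] [DecidableEq P]

/-- twice the value of a part with the shares of its pendants, weights of step 0 -/
noncomputable def Ut (i : ℕ) (t : Tops P) : ℤ :=
  2 * Pn.own Wst i (i + 1) t +
    ∑ p ∈ (PD P i).filter (fun p => (topOf p : Tops P) = t), Pn.shr Wst i p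

/-- the value of a part whose component is small -/
noncomputable def Qt (i : ℕ) (t : Tops P) : ℤ :=
  Vt i t + 2 * v3 (i + 1) t + 4 * v3 (i + 1) t ^ 2

/-- a light join at a double of the part -/
def LightJ (i : ℕ) (K : Finset P) (t : Tops P) : Prop :=
  ∃ z y v : P, K2.SD (i + 1) (topOf : P → Tops P) z y v ∧ topOf y = t ∧
    sa (i + 1) (topOf : P → Tops P) K (uc y) (topOf y) = 0 ∧
    z ∉ So.N5s i (topOf : P → Tops P)

/-- the bound of the leaves of step 0 -/
def Q0 (i : ℕ) (K : Finset P) (t : Tops P) : Prop :=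
  0 ≤ Qt i t ∨ (-8 ≤ Qt i t ∧ LightJ i K t)

end defs

variable {P : Type u} [Fintype P] [PartialOrder P] [DecidableEq P] {r i j : ℕ}

variable {m : ℕ} {x : ℕ → P} {c : ℕ → ℤ} {β : ℤ} {t : Tops P}

variable {K : Finset P} {psi : P → P} {Y V : P → P}

lemma Ut_eq (i : ℕ) (t : Tops P) :
    Ut i t = Vt i t + 2 * v3 (i + 1) t + 4 * Pn.F6 (i + 1) t := by
  have e1 : ∀ p : P, Pn.shr Wst i p = Pn.shr Wsh i p := fun p => rfl
  have e2 : v3 (i + 1) t = Pn.F3 (i + 1) t := rfl
  unfold Ut Vt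
  rw [Finset.sum_congr rfl (fun p _ => e1 p), e2]
  unfold Pn.own Wst Wsh
  ring

lemma NJ.Ut_small (h : NJ P r (i + 1)) (hi1 : 1 ≤ i) (R : Red P (i + 1) K psi)
    (hs : Small (i + 1) (topOf : P → Tops P) t) : Ut i t = Qt i t := by
  have e2 : wv (i + 1) (cext (i + 1 + 1) (topOf : P → Tops P) t) = v3 (i + 1) t := rfl
  rw [Ut_eq, NJ.F6_small h (by omega) R hs, e2]
  rfl

open Classical in
/-- the shares of a join -/
noncomputable def g0 (i : ℕ) (K : Finset P) (Y : P → P) (z q : P) : ℤ :=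
  if q = Y z then Pn.cst Wst i (i + 1) K z else 0

open Classical in
/-- the sum of the shares at a part -/
noncomputable def G0 (i : ℕ) (K : Finset P) (Y : P → P) (t : Tops P) : ℤ :=
  ∑ z ∈ K2.Z2 (i + 1) (topOf : P → Tops P),
    ∑ q ∈ (uc z).filter (fun q => (topOf q : Tops P) = t), g0 i K Y z q

lemma Lm_g0 (t : Tops P) : Pn.Lm Wst (g0 i K Y) i (i + 1) t = Ut i t + G0 i K Y t := rfl

/-- the sum of the shares -/
lemma YW.sum_g0 (hY : YW (i + 1) Y V) {z : P} (hz : z ∈ K2.Z2 (i + 1) (topOf : P → Tops P)) :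
    ∑ q ∈ uc z, g0 i K Y z q = Pn.cst Wst i (i + 1) K z := by
  classical
  have S := hY z hz
  rw [S.huc, sum_pair S.ne]
  unfold g0
  rw [if_pos rfl, if_neg S.ne.symm, add_zero]

section main

variable (h : NJ P r (i + 1)) (hi1 : 1 ≤ i) (R : Red P (i + 1) K psi)

include h R

/-- the cost -/
lemma NJ.cst0_val {z : P} : Pn.cst Wst i (i + 1) K z =
    8 * (1 + Ek (i + 1) K (K2.Tz z) 1) + 8 * (Ek (i + 1) K (K2.Tz z) 3 + Ek (i + 1) K (K2.Tz z) 2) -
      (if z ∈ So.N5s i (topOf : P → Tops P) then 8 else 0) := by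
  classical
  unfold Pn.cst Pn.e1 Pn.e23 Wst
  by_cases hz : z ∈ So.N5s i (topOf : P → Tops P)
  · rw [if_pos hz, if_pos hz]
    ring
  · rw [if_neg hz, if_neg hz]
    ring

include hi1 in
/-- every join has a nonnegative cost, a light join of a double outside `N5s` at least eight -/
lemma NJ.cst0_bounds {z y v : P} (S : K2.SD (i + 1) (topOf : P → Tops P) z y v) :
    0 ≤ Pn.cst Wst i (i + 1) K z ∧
      (sa (i + 1) (topOf : P → Tops P) K (uc y) (topOf y) = 0 →
        z ∉ So.N5s i (topOf : P → Tops P) → 8 ≤ Pn.cst Wst i (i + 1) K z) := by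
  classical
  have hj : 2 ≤ i + 1 := by omega
  have hjr : i + 1 ≤ r := by have := h.hr; omega
  have h1 := K2.Ek_one_SD h.g.H hjr h.split R.mat R.sub S
  have hb := NJ.sa_single h hj R (S.lv' h.g.H) S.cv
  have hcst := NJ.cst0_val (i := i) h R (z := z)
  obtain ⟨m, x, c, β, B⟩ := NJ.rowB h hj (topOf y)
  by_cases hp : Pat6 m c β
  · have h3 := NJ.join_six h R S hj B hp
    have e1 := h3 1
    have e2 := h3 2
    have e3 := h3 3
    refine ⟨?_, fun _ hn => ?_⟩
    · rw [hcst]
      split_ifs <;> linarith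
    · rw [hcst, if_neg hn]
      linarith
  · have hy : Small (i + 1) (topOf : P → Tops P) (topOf y) :=
      (B.small h.g.H h.split).resolve_right hp
    obtain ⟨h2, h3⟩ := NJ.join_small h R S hj hy (NJ.join_v h R S hj)
    rw [h1, h2, h3 3 le_rfl] at hcst
    generalize sa (i + 1) (topOf : P → Tops P) K (uc v) (topOf v) = b at *
    by_cases hbad : BadR P (i + 1) y
    · have ha := sa_badR h R hbad
      have hn := NJ.bad_N5s h S hbad
      rw [ha] at hcst
      refine ⟨?_, fun q => ?_⟩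
      · rw [hcst, if_neg hn]
        linarith
      · rw [ha] at q
        norm_num at q
    · have ha := B.sa_double h R hp (paO_y h S) rfl hbad
      generalize sa (i + 1) (topOf : P → Tops P) K (uc y) (topOf y) = a at *
      refine ⟨?_, fun q hn => ?_⟩
      · have hab := mul_nonneg ha hb
        rw [hcst]
        split_ifs <;> linarith
      · rw [hcst, q, if_neg hn]
        linarith

variable (hY : YW (i + 1) Y V)

include hi1 hY

lemma NJ.g0_nonneg {z q : P} (hz2 : z ∈ K2.Z2 (i + 1) (topOf : P → Tops P)) :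
    0 ≤ g0 i K Y z q := by
  classical
  unfold g0
  split_ifs
  · exact (NJ.cst0_bounds h hi1 R (hY z hz2)).1
  · exact le_rfl

lemma NJ.G0_nonneg (t : Tops P) : 0 ≤ G0 i K Y t := by
  classical
  unfold G0
  exact sum_nonneg fun z hz => sum_nonneg fun q _ => NJ.g0_nonneg h hi1 R hY hz

/-- the gain of a light join -/
theorem NJ.G0_light (hl : LightJ i K t) : 8 ≤ G0 i K Y t := by
  classical
  obtain ⟨z, y, v, S, rfl, ha, hn⟩ := hl
  have hz2 := NJ.sd_Z2 h S
  obtain ⟨rfl, rfl⟩ := hY.uniq hz2 S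
  have h1 := (NJ.cst0_bounds h hi1 R (hY z hz2)).2 ha hn
  have h2 : g0 i K Y z (Y z) = Pn.cst Wst i (i + 1) K z := by
    unfold g0
    rw [if_pos rfl]
  have h3 : g0 i K Y z (Y z) ≤
      ∑ q ∈ (uc z).filter (fun q => (topOf q : Tops P) = topOf (Y z)), g0 i K Y z q :=
    single_le_sum (f := fun q => g0 i K Y z q) (fun q _ => NJ.g0_nonneg h hi1 R hY hz2)
      (mem_filter.2 ⟨S.my, rfl⟩)
  have h4 : ∑ q ∈ (uc z).filter (fun q => (topOf q : Tops P) = topOf (Y z)), g0 i K Y z q ≤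
      G0 i K Y (topOf (Y z)) :=
    single_le_sum (f := fun z' => ∑ q ∈ (uc z').filter
      (fun q => (topOf q : Tops P) = topOf (Y z)), g0 i K Y z' q)
      (fun z' hz => sum_nonneg fun q _ => NJ.g0_nonneg h hi1 R hY hz) hz2
  linarith

/-- the value of a part -/
theorem NJ.Q0_nonneg (h6 : ∀ (m : ℕ) (x : ℕ → P) (c : ℕ → ℤ) (β : ℤ),
    RowB P (i + 1) t m x c β → ¬ Pat6 m c β) (hQ : Q0 i K t) : 0 ≤ Ut i t + G0 i K Y t := by
  obtain ⟨m, x, c, β, B⟩ := NJ.rowB h (show 2 ≤ i + 1 by omega) t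
  have hs : Small (i + 1) (topOf : P → Tops P) t :=
    (B.small h.g.H h.split).resolve_right (h6 m x c β B)
  rw [NJ.Ut_small h hi1 R hs]
  rcases hQ with h1 | ⟨h1, h2⟩
  · have := NJ.G0_nonneg h hi1 R hY t
    linarith
  · have := NJ.G0_light h hi1 R hY h2
    linarith

end main

end Pool.Agent.GaussPoset.EK
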