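import Pool.Agent.W_448st0_h96.SzA
import Pool.Agent.W_448j6_h22.KbK

/-!
# Final assembly (MP_448cb3_co): STEP 0 at the level 8: THE CHARGES

`j = i + 1`.  The functional `Wei` is `- L31 + 7 L52 - 2 L62 - 2 L83 - 2 L10,4 + w21 - 2 L42 + 6 w32 +
2 (w32 ^ 2 - 2 w64)`.  A join of a double and a single element costs (twice)
`4 (1 + Ek 1 + 2 Ek 2 + 2 Ek 3)`; everything goes to the part of the double element, but a bad join
with `b = sz ≥ 1` is paid by the two parts: `4` and `4 (b - 1)`.
-/

namespace Pool.Agent.GaussPoset.EK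

set_option linter.unusedSectionVars false

open Finset Win St Polynomial Wd Win.W4

universe u

/-- the weights of step 0 at the level 8 -/
def Wei : Pn.Wt := ⟨-1, 7, 1, 2, 1, 1, 1, 6, 2⟩

section defs

variable {P : Type u} [Fintype P] [PartialOrder P] [DecidableEq P]

/-- twice the value of a part with the shares of its pendants, weights of step 0 at the level 8 -/
noncomputable def Ue (i : ℕ) (t : Tops P) : ℤ :=
  2 * Pn.own Wei i (i + 1) t +
    ∑ p ∈ (PD P i).filter (fun p => (topOf p : Tops P) = t), Pn.shr Wei i p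

/-- a join at a double of the part which is not bad -/
def GoodJ (j : ℕ) (t : Tops P) : Prop :=
  ∃ z y v : P, K2.SD j (topOf : P → Tops P) z y v ∧ topOf y = t ∧ ¬ BadR P j y

open Classical in
/-- the share of the part of the single element (only at a triangle) -/
noncomputable def PC (j : ℕ) (K : Finset P) (Y V : P → P) (t : Tops P) : ℤ :=
  ∑ z ∈ (PZ j K Y V).filter (fun z => topOf (V z) = t), (sz j K V z - 1)

/-- the bound of the leaves of step 0 at the level 8 -/
def Qe (i : ℕ) (K : Finset P) (Y V : P → P) (t : Tops P) : Prop :=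
  4 * (PA (i + 1) K Y V t + PC (i + 1) K Y V t) ≤ Ue i t ∨
    (4 * (PA (i + 1) K Y V t + PC (i + 1) K Y V t) ≤ Ue i t + 4 ∧ GoodJ (i + 1) t)

end defs

variable {P : Type u} [Fintype P] [PartialOrder P] [DecidableEq P] {r i j : ℕ}

variable {m : ℕ} {x : ℕ → P} {c : ℕ → ℤ} {β : ℤ} {t : Tops P}

variable {K : Finset P} {psi : P → P} {Y V : P → P}

open Classical in
/-- the payment of the part of the single element -/
noncomputable def pe (i : ℕ) (K : Finset P) (Y V : P → P) (z : P) : ℤ :=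
  if z ∈ PZ (i + 1) K Y V then 4 * (sz (i + 1) K V z - 1) else 0

open Classical in
/-- the shares of a join -/
noncomputable def ge (i : ℕ) (K : Finset P) (Y V : P → P) (z q : P) : ℤ :=
  if q = Y z then Pn.cst Wei i (i + 1) K z + pe i K Y V z else
    if q = V z then - pe i K Y V z else 0

open Classical in
/-- the sum of the shares at a part -/
noncomputable def Ge (i : ℕ) (K : Finset P) (Y V : P → P) (t : Tops P) : ℤ :=
  ∑ z ∈ K2.Z2 (i + 1) (topOf : P → Tops P),
    ∑ q ∈ (uc z).filter (fun q => (topOf q : Tops P) = t), ge i K Y V z q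

lemma Lm_ge (t : Tops P) : Pn.Lm Wei (ge i K Y V) i (i + 1) t = Ue i t + Ge i K Y V t := rfl

/-- the sum of the shares -/
lemma YW.sum_ge (hY : YW (i + 1) Y V) {z : P} (hz : z ∈ K2.Z2 (i + 1) (topOf : P → Tops P)) :
    ∑ q ∈ uc z, ge i K Y V z q = Pn.cst Wei i (i + 1) K z := by
  classical
  have S := hY z hz
  rw [S.huc, sum_pair S.ne]
  unfold ge
  rw [if_pos rfl, if_neg S.ne.symm, if_pos rfl]
  ring

/-- the cost -/
lemma cste_val {z : P} :
    Pn.cst Wei i (i + 1) K z = 2 * JW (i + 1) K z := by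
  classical
  unfold Pn.cst Pn.e1 Pn.e23 Wei JW
  split_ifs <;> ring

open Classical in
/-- the sum of the shares at a part, join by join -/
lemma YW.Ge_eq (hY : YW (i + 1) Y V) (t : Tops P) : Ge i K Y V t =
    ∑ z ∈ K2.Z2 (i + 1) (topOf : P → Tops P),
      ((if topOf (Y z) = t then Pn.cst Wei i (i + 1) K z + pe i K Y V z else 0) +
        (if topOf (V z) = t then - pe i K Y V z else 0)) := by
  unfold Ge
  refine sum_congr rfl fun z hz => ?_
  have S := hY z hz
  rw [S.huc, sum_filter, sum_pair S.ne]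
  unfold ge
  rw [if_pos rfl, if_neg S.ne.symm, if_pos rfl]

section main

variable (h : NJ P r (i + 1)) (hi1 : 1 ≤ i) (R : Red P (i + 1) K psi) (hY : YW (i + 1) Y V)

include h hi1 R hY

/-- the share of the part of the double element -/
lemma NJ.ge_double {z : P} (hz : z ∈ K2.Z2 (i + 1) (topOf : P → Tops P)) :
    (- (if z ∈ PZ (i + 1) K Y V then 4 else 0) ≤ Pn.cst Wei i (i + 1) K z + pe i K Y V z) ∧
      (¬ BadR P (i + 1) (Y z) → 4 ≤ Pn.cst Wei i (i + 1) K z + pe i K Y V z) := by
  classical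
  have S := hY z hz
  have h1 := NJ.sa_single h (by omega) R (S.lv' h.g.H) S.cv
  have hc : Pn.cst Wei i (i + 1) K z = 2 * JW (i + 1) K z := cste_val
  unfold pe
  by_cases hb : BadR P (i + 1) (Y z)
  · refine ⟨?_, fun q => absurd hb q⟩
    have h2 := NJ.JW_bad h R S (by omega) hb
    by_cases hp : z ∈ PZ (i + 1) K Y V
    · rw [if_pos hp, if_pos hp, hc, h2]
      unfold sz
      linarith
    · rw [if_neg hp, if_neg hp, hc, h2]
      have h3 : ¬ 1 ≤ sz (i + 1) K V z := fun q => hp (mem_PZ.2 ⟨hz, hb, q⟩)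
      unfold sz at h3
      linarith
  · have hp : z ∉ PZ (i + 1) K Y V := fun q => hb (mem_PZ.1 q).2.1
    have h2 := NJ.JW_good h R S (by omega) hb
    rw [if_neg hp, if_neg hp, hc]
    refine ⟨by linarith, fun _ => by linarith⟩

/-- the shares at a part -/
lemma NJ.Ge_ge (t : Tops P) :
    - (4 * (PA (i + 1) K Y V t + PC (i + 1) K Y V t)) ≤ Ge i K Y V t ∧
      (GoodJ (i + 1) t →
        4 - 4 * (PA (i + 1) K Y V t + PC (i + 1) K Y V t) ≤ Ge i K Y V t) := by
  classical
  have e0 : PZ (i + 1) K Y V = (K2.Z2 (i + 1) (topOf : P → Tops P)).filter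
      (fun z => z ∈ PZ (i + 1) K Y V) := by
    ext z
    rw [mem_filter]
    exact ⟨fun q => ⟨(mem_PZ.1 q).1, q⟩, fun q => q.2⟩
  have e1 : PA (i + 1) K Y V t = ∑ z ∈ K2.Z2 (i + 1) (topOf : P → Tops P),
      (if z ∈ PZ (i + 1) K Y V then (if topOf (Y z) = t then (1 : ℤ) else 0) else 0) := by
    rw [← sum_filter, ← e0]
    unfold PA
    rw [card_filter]
    push_cast
    rfl
  have e2 : PC (i + 1) K Y V t = ∑ z ∈ K2.Z2 (i + 1) (topOf : P → Tops P),
      (if z ∈ PZ (i + 1) K Y V then
        (if topOf (V z) = t then sz (i + 1) K V z - 1 else 0) else 0) := by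
    rw [← sum_filter, ← e0]
    unfold PC
    rw [sum_filter]
  have key : Ge i K Y V t + 4 * (PA (i + 1) K Y V t + PC (i + 1) K Y V t) =
      ∑ z ∈ K2.Z2 (i + 1) (topOf : P → Tops P),
        (if topOf (Y z) = t then Pn.cst Wei i (i + 1) K z + pe i K Y V z +
          (if z ∈ PZ (i + 1) K Y V then 4 else 0) else 0) := by
    rw [hY.Ge_eq, e1, e2, ← sum_add_distrib, mul_sum, ← sum_add_distrib]
    refine sum_congr rfl fun z hz => ?_
    unfold pe
    split_ifs <;> ring
  have hnn : ∀ z ∈ K2.Z2 (i + 1) (topOf : P → Tops P), (0 : ℤ) ≤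
      (if topOf (Y z) = t then Pn.cst Wei i (i + 1) K z + pe i K Y V z +
          (if z ∈ PZ (i + 1) K Y V then 4 else 0) else 0) := by
    intro z hz
    have := (NJ.ge_double h hi1 R hY hz).1
    split_ifs
    · rename_i q1 q2
      rw [if_pos q2] at this
      linarith
    · rename_i q1 q2
      rw [if_neg q2] at this
      linarith
    · exact le_rfl
  refine ⟨by have := sum_nonneg hnn; linarith, ?_⟩
  rintro ⟨z, y, v, S, rfl, hb⟩
  have hz2 := NJ.sd_Z2 h S
  obtain ⟨rfl, rfl⟩ := hY.uniq hz2 S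
  have h1 := single_le_sum (f := fun z' => (if topOf (Y z') = topOf (Y z) then
    Pn.cst Wei i (i + 1) K z' + pe i K Y V z' +
      (if z' ∈ PZ (i + 1) K Y V then (4 : ℤ) else 0) else 0)) hnn hz2
  have h2 := (NJ.ge_double h hi1 R hY hz2).2 hb
  have h3 : z ∉ PZ (i + 1) K Y V := fun q => hb (mem_PZ.1 q).2.1
  simp only [if_true] at h1
  rw [if_neg h3] at h1
  linarith

/-- the value of a part -/
theorem NJ.Qe_nonneg (hQ : Qe i K Y V t) : 0 ≤ Ue i t + Ge i K Y V t := by
  obtain ⟨g1, g2⟩ := NJ.Ge_ge h hi1 R hY t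
  rcases hQ with h1 | ⟨h1, h2⟩
  · linarith
  · have := g2 h2
    linarith

/-- a part without bad doubles whose single elements have values at most one pays nothing -/
theorem NJ.pay_zero (B : RowB P (i + 1) t m x c β) (hb : m ≤ 2 ∨ β = 0)
    (hs : ∀ q, q ≤ m → (pen (x q)).Nonempty → sa (i + 1) (topOf : P → Tops P) K {x q} t ≤ 1) :
    PA (i + 1) K Y V t = 0 ∧ PC (i + 1) K Y V t = 0 := by
  classical
  constructor
  · refine NJ.PA_zero h (by omega) R hY fun y hy ht => ?_
    have := B.bad h (by omega) hy ht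
    omega
  · unfold PC
    refine sum_eq_zero fun z hz => ?_
    rw [mem_filter] at hz
    obtain ⟨q, hq, h1, -, h2⟩ := NJ.PZ_V h (by omega) R hY hz.1 hz.2 B
    have h3 := (mem_PZ.1 hz.1).2.2
    have := hs q hq ⟨_, h1⟩
    omega

end main

end Pool.Agent.GaussPoset.EK
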