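import Pool.Agent.W_448st0_h96.SzC
import Pool.Agent.W_448st0_h96.SzB
import Pool.Agent.W_448t8_h97.TI

/-!
# Final assembly (MP_448cb3_co): STEP 0 at the level 8, WITH COUNTING: THE CHARGES

`j = i + 1`.  The functional `Wea` is `- L31 + 7 L52 - 2 L62 - 2 L83 - 2 L10,4 + w21 - 2 L42 + 7 w32 +
w32 ^ 2 - 2 w64`.  A join of a double and a single element costs (twice) `4 (1 + a) (1 + b) ≥ 0`;
everything goes to the part of the double element, a bad join costs nothing.
-/

namespace Pool.Agent.GaussPoset.EK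

set_option linter.unusedSectionVars false

open Finset Win St Polynomial Wd Win.W4

universe u

/-- the weights of step 0 at the level 8, with counting -/
def Wea : Pn.Wt := ⟨-1, 7, 1, 2, 1, 1, 1, 7, 1⟩

section defs

variable {P : Type u} [Fintype P] [PartialOrder P] [DecidableEq P]

/-- twice the value of a part with the shares of its pendants -/
noncomputable def Ua (i : ℕ) (t : Tops P) : ℤ :=
  2 * Pn.own Wea i (i + 1) t +
    ∑ p ∈ (PD P i).filter (fun p => (topOf p : Tops P) = t), Pn.shr Wea i p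

/-- the joins at the single elements of the part are light -/
def OwnL (j : ℕ) (K : Finset P) (t : Tops P) : Prop :=
  ∀ z y v : P, K2.SD j (topOf : P → Tops P) z y v → topOf v = t →
    sa j (topOf : P → Tops P) K (uc v) (topOf v) = 0

/-- THE COUNTED PARTS: three sites, value (3,2) equal to minus one, light joins -/
def Sz (j : ℕ) (K : Finset P) (t : Tops P) : Prop :=
  Pn.F3 j t = -1 ∧ (st j (cext (j + 1) (topOf : P → Tops P) t)).card ≤ 3 ∧ OwnL j K t

/-- a part with two stars -/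
def Six (j : ℕ) (t : Tops P) : Prop :=
  ∃ (m : ℕ) (x : ℕ → P) (c : ℕ → ℤ) (β : ℤ), RowB P j t m x c β ∧ Pat6 m c β

/-- the bound of the leaves of step 0 at the level 8 -/
def Qa (i : ℕ) (K : Finset P) (t : Tops P) : Prop :=
  0 ≤ Ua i t ∨ (-4 ≤ Ua i t ∧ (GoodJ (i + 1) t ∨ Sz (i + 1) K t))

end defs

variable {P : Type u} [Fintype P] [PartialOrder P] [DecidableEq P] {r i j : ℕ}

variable {m : ℕ} {x : ℕ → P} {c : ℕ → ℤ} {β : ℤ} {t : Tops P}

variable {K : Finset P} {psi : P → P} {Y V : P → P}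

open Classical in
/-- the shares of a join -/
noncomputable def ga (i : ℕ) (K : Finset P) (Y : P → P) (z q : P) : ℤ :=
  if q = Y z then Pn.cst Wea i (i + 1) K z else 0

open Classical in
/-- the sum of the shares at a part -/
noncomputable def Ga (i : ℕ) (K : Finset P) (Y : P → P) (t : Tops P) : ℤ :=
  ∑ z ∈ K2.Z2 (i + 1) (topOf : P → Tops P),
    ∑ q ∈ (uc z).filter (fun q => (topOf q : Tops P) = t), ga i K Y z q

lemma Lm_ga (t : Tops P) : Pn.Lm Wea (ga i K Y) i (i + 1) t = Ua i t + Ga i K Y t := rfl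

/-- the sum of the shares -/
lemma YW.sum_ga (hY : YW (i + 1) Y V) {z : P} (hz : z ∈ K2.Z2 (i + 1) (topOf : P → Tops P)) :
    ∑ q ∈ uc z, ga i K Y z q = Pn.cst Wea i (i + 1) K z := by
  classical
  have S := hY z hz
  rw [S.huc, sum_pair S.ne]
  unfold ga
  rw [if_pos rfl, if_neg S.ne.symm, add_zero]

/-- the cost -/
lemma csta_val {z : P} : Pn.cst Wea i (i + 1) K z =
    4 * (1 + Ek (i + 1) K (K2.Tz z) 1) +
      4 * (Ek (i + 1) K (K2.Tz z) 3 + Ek (i + 1) K (K2.Tz z) 2) := by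
  classical
  unfold Pn.cst Pn.e1 Pn.e23 Wea
  split_ifs <;> ring

section main

variable (h : NJ P r (i + 1)) (hi1 : 1 ≤ i) (R : Red P (i + 1) K psi)

include h R hi1

/-- every join has a nonnegative cost, a join of a double which is not bad at least four -/
lemma NJ.csta_bounds {z y v : P} (S : K2.SD (i + 1) (topOf : P → Tops P) z y v) :
    0 ≤ Pn.cst Wea i (i + 1) K z ∧ (¬ BadR P (i + 1) y → 4 ≤ Pn.cst Wea i (i + 1) K z) := by
  classical
  have hj : 2 ≤ i + 1 := by omega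
  have hjr : i + 1 ≤ r := by have := h.hr; omega
  have h1 := K2.Ek_one_SD h.g.H hjr h.split R.mat R.sub S
  have hb := NJ.sa_single h hj R (S.lv' h.g.H) S.cv
  have hcst : Pn.cst Wea i (i + 1) K z = 4 * (1 + Ek (i + 1) K (K2.Tz z) 1) +
      4 * (Ek (i + 1) K (K2.Tz z) 3 + Ek (i + 1) K (K2.Tz z) 2) := csta_val
  obtain ⟨m, x, c, β, B⟩ := NJ.rowB h hj (topOf y)
  by_cases hp : Pat6 m c β
  · have h3 := NJ.join_six h R S hj B hp
    have e1 := h3 1
    have e2 := h3 2
    have e3 := h3 3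
    refine ⟨?_, fun _ => ?_⟩
    · rw [hcst]
      linarith
    · rw [hcst]
      linarith
  · have hy : Small (i + 1) (topOf : P → Tops P) (topOf y) :=
      (B.small h.g.H h.split).resolve_right hp
    obtain ⟨h2, h3⟩ := NJ.join_small h R S hj hy (NJ.join_v h R S hj)
    rw [h1, h2, h3 3 le_rfl] at hcst
    generalize sa (i + 1) (topOf : P → Tops P) K (uc v) (topOf v) = b at *
    by_cases hbad : BadR P (i + 1) y
    · have ha := sa_badR h R hbad
      rw [ha] at hcst
      refine ⟨?_, fun q => absurd hbad q⟩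
      rw [hcst]
      linarith
    · have ha := B.sa_double h R hp (paO_y h S) rfl hbad
      generalize sa (i + 1) (topOf : P → Tops P) K (uc y) (topOf y) = a at *
      have hab := mul_nonneg ha hb
      refine ⟨?_, fun _ => ?_⟩
      · rw [hcst]
        linarith
      · rw [hcst]
        linarith

variable (hY : YW (i + 1) Y V)

include hY

lemma NJ.ga_nonneg {z q : P} (hz2 : z ∈ K2.Z2 (i + 1) (topOf : P → Tops P)) :
    0 ≤ ga i K Y z q := by
  classical
  unfold ga
  split_ifs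
  · exact (NJ.csta_bounds h hi1 R (hY z hz2)).1
  · exact le_rfl

lemma NJ.Ga_nonneg (t : Tops P) : 0 ≤ Ga i K Y t := by
  classical
  unfold Ga
  exact sum_nonneg fun z hz => sum_nonneg fun q _ => NJ.ga_nonneg h hi1 R hY hz

/-- the gain of a good join -/
theorem NJ.Ga_good (hl : GoodJ (i + 1) t) : 4 ≤ Ga i K Y t := by
  classical
  obtain ⟨z, y, v, S, rfl, ha⟩ := hl
  have hz2 := NJ.sd_Z2 h S
  obtain ⟨rfl, rfl⟩ := hY.uniq hz2 S
  have h1 := (NJ.csta_bounds h hi1 R (hY z hz2)).2 ha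
  have h2 : ga i K Y z (Y z) = Pn.cst Wea i (i + 1) K z := by
    unfold ga
    rw [if_pos rfl]
  have h3 : ga i K Y z (Y z) ≤
      ∑ q ∈ (uc z).filter (fun q => (topOf q : Tops P) = topOf (Y z)), ga i K Y z q :=
    single_le_sum (f := fun q => ga i K Y z q) (fun q _ => NJ.ga_nonneg h hi1 R hY hz2)
      (mem_filter.2 ⟨S.my, rfl⟩)
  have h4 : ∑ q ∈ (uc z).filter (fun q => (topOf q : Tops P) = topOf (Y z)), ga i K Y z q ≤
      Ga i K Y (topOf (Y z)) :=
    single_le_sum (f := fun z' => ∑ q ∈ (uc z').filter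
      (fun q => (topOf q : Tops P) = topOf (Y z)), ga i K Y z' q)
      (fun z' hz => sum_nonneg fun q _ => NJ.ga_nonneg h hi1 R hY hz) hz2
  linarith

/-- the value of a part -/
theorem NJ.Qa_nonneg (hQ : Qa i K t) :
    0 ≤ Ua i t + Ga i K Y t ∨ (-4 ≤ Ua i t + Ga i K Y t ∧ Sz (i + 1) K t) := by
  have h0 := NJ.Ga_nonneg h hi1 R hY t
  rcases hQ with h1 | ⟨h1, h2 | h2⟩
  · left
    linarith
  · left
    have := NJ.Ga_good h hi1 R hY h2
    linarith
  · right
    exact ⟨by linarith, h2⟩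

/-- THE COUNT: no part with two stars -/
theorem NJ.no_six (hc : ∀ A B : Finset (Tops P), (∀ t ∈ A, Sz (i + 1) K t) →
      (∀ t, Six (i + 1) t → t ∈ B) → (∀ t ∈ B, Six (i + 1) t) → A.card ≤ 4 * B.card)
    (h6 : ∀ t : Tops P, Six (i + 1) t → 20 ≤ Ua i t)
    (hQ : ∀ t : Tops P, ¬ Six (i + 1) t → Qa i K t) (t : Tops P) : ¬ Six (i + 1) t := by
  classical
  intro ht
  obtain ⟨A, hA⟩ : ∃ A : Finset (Tops P), A = univ.filter (fun t => Sz (i + 1) K t) := ⟨_, rfl⟩
  obtain ⟨B, hB⟩ : ∃ B : Finset (Tops P), B = univ.filter (fun t => Six (i + 1) t) := ⟨_, rfl⟩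
  have mA : ∀ t, t ∈ A ↔ Sz (i + 1) K t := fun t => by rw [hA, mem_filter]; simp
  have mB : ∀ t, t ∈ B ↔ Six (i + 1) t := fun t => by rw [hB, mem_filter]; simp
  have hcard := hc A B (fun t q => (mA t).1 q) (fun t q => (mB t).2 q) (fun t q => (mB t).1 q)
  obtain ⟨X, hX⟩ : ∃ X : Tops P → ℤ, ∀ t, X t =
      (if t ∈ A then 4 else 0) - (if t ∈ B then 16 else 0) := ⟨_, fun _ => rfl⟩
  have hsum : ∑ t : Tops P, X t ≤ 0 := by
    have e1 : ∑ t : Tops P, X t = 4 * (A.card : ℤ) - 16 * (B.card : ℤ) := by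
      rw [Finset.sum_congr rfl (fun t _ => hX t), sum_sub_distrib, ← sum_filter, ← sum_filter,
        sum_const, sum_const, filter_univ_mem, filter_univ_mem, nsmul_eq_mul, nsmul_eq_mul]
      ring
    have e2 : (A.card : ℤ) ≤ 4 * (B.card : ℤ) := by exact_mod_cast hcard
    linarith
  have hGn := fun t => NJ.Ga_nonneg h hi1 R hY t
  have hpos : ∀ t : Tops P, 0 ≤ Pn.Lm Wea (ga i K Y) i (i + 1) t + X t := by
    intro t
    rw [Lm_ga, hX t]
    by_cases hb : Six (i + 1) t
    · have e1 := h6 t hb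
      have e2 := hGn t
      rw [if_pos ((mB t).2 hb)]
      split_ifs <;> linarith
    · rw [if_neg (fun q => hb ((mB t).1 q))]
      rcases NJ.Qa_nonneg h hi1 R hY (hQ t hb) with e1 | ⟨e1, e2⟩
      · split_ifs <;> linarith
      · rw [if_pos ((mA t).2 e2)]
        linarith
  have ha8 : (0 : ℤ) ≤ Wea.a8 := by
    unfold Wea
    norm_num
  have hz := (Pn.nj_endX h rfl hi1 (NJ.lv_pos h hi1 t) R Wea ha8 (ga i K Y) X hsum
    (fun z hz => (hY.sum_ga hz).le) hpos).1 t
  rw [Lm_ga, hX t, if_pos ((mB t).2 ht)] at hz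
  have e1 := h6 t ht
  have e2 := hGn t
  split_ifs at hz <;> linarith

end main

end Pool.Agent.GaussPoset.EK
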