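import Pool.Agent.W_448st0_h96.SzF
import Pool.Agent.W_448op_h53.OeD
import Pool.Agent.W_448e_h22.WeF
import Pool.Agent.W_448six_h74.SkL

/-!
# Final assembly (MP_448cb3_co): STEP 0 at the level 8, with counting: the wrappers of the leaves
-/

namespace Pool.Agent.GaussPoset.EK

set_option linter.unusedSectionVars false

open Finset Win St Polynomial Wd Win.W4

universe u

variable (P : Type u) [Fintype P] [PartialOrder P] [DecidableEq P]

/-- naturals -/
theorem leaf_natA : HNatA P := by
  intro r i t m x c β h8 h B hβ hc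
  obtain rfl : i = 7 := by omega
  obtain ⟨lo, hi, e, C, hS⟩ := hsh (P := P) r (7 + 1) h.nj.g
  exact NJ.wa_nat h.nj C hS B hβ hc

/-- closed [DL] -/
theorem leaf_closedA : HClosedA P := by
  intro r i K psi t m x c β lo hi e h8 h R B C S hm hI hu
  obtain rfl : i = 7 := by omega
  left
  exact Wd.NJ.wa_closed h.nj B C S hm hI.1 hI.2.1 hI.2.2.1 hI.2.2.2 hu

/-- three sites -/
theorem leaf_twoA : HTwoA P := by
  intro r i K psi t x c β lo hi e h8 hC hT h R C hS B hd
  rcases NJ.three_c8 h.nj (by omega) (C t) (hS t) R B hd with q | ⟨q1, q2, q3, q4⟩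
  · exact Or.inl q
  · exact Or.inr ⟨q1, Or.inr ⟨q2, q3, q4⟩⟩

/-- two stars -/
theorem leaf_sixA : HSixA P := by
  intro r i t m x c β h8 h B hp
  exact CB.six_w9 h h8 B hp

end Pool.Agent.GaussPoset.EK
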