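import Pool.Agent.W_448st0_h96.SzD
import Pool.Agent.W_448nv_h97.NvE
import Pool.Agent.W_448v8_h97.VaD
import Pool.Agent.W_448n6_h84.NbB
import Pool.Agent.W_448e_h22.WeD

/-!
# Final assembly (MP_448cb3_co): the wrappers of the leaves
-/

namespace Pool.Agent.GaussPoset.EK

set_option linter.unusedSectionVars false

open Finset Win St Polynomial Wd Win.W4

universe u

variable (P : Type u) [Fintype P] [PartialOrder P] [DecidableEq P]

/-- naturals, weights `W#` -/
theorem leaf_nat : HNat P := by
  intro r i t m x c β hi1 h B hβ hc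
  obtain ⟨lo, hi, e, C, hS⟩ := hsh (P := P) r (i + 1) h.nj.g
  exact NJ.nat_all h.nj rfl hi1 C hS B hβ hc

/-- naturals, weights `V8` -/
theorem leaf_natE : HNatE P := by
  intro r i t m x c β h8 h B hβ hc
  obtain rfl : i = 7 := by omega
  obtain ⟨lo, hi, e, C, hS⟩ := hsh (P := P) r (7 + 1) h.nj.g
  exact NJ.nat_all8 h.nj C hS B hβ hc

/-- closed [DL], weights `V8` -/
theorem leaf_closedE : HClosedE P := by
  intro r i K psi t m x c β lo hi e h8 h R B C S hm hI hu
  obtain rfl : i = 7 := by omega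
  left
  exact Wd.NJ.v8_closed h.nj B C S hm hI.1 hI.2.1 hI.2.2.1 hI.2.2.2 hu

/-- three sites, weights `V8` -/
theorem leaf_twoE : HTwoE P := by
  intro r i K psi Y V t x c β lo hi e h8 hC hT h R hY C hS B hd
  left
  exact NJ.three_e8 h.nj (by omega) (C t) (hS t) R hY B hd

end Pool.Agent.GaussPoset.EK
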