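import Pool.Agent.W_448w7_h94.WiT
import Pool.Agent.W_448s7s_h5.TuR
import Pool.Agent.W_448j6_h22.KcK
import Pool.Agent.W_448nl_h15.NlV
import Pool.Agent.W_448win_h80.R3E
import Pool.Agent.W_448fg_h53.FgL
import Pool.Agent.W_448fg_h53.FgN
import Pool.Agent.W_448s7s_h5.TwK
import Pool.Agent.W_448s7s_h5.TwM
import Pool.Agent.W_448fin_h16.FnU
import Pool.Agent.W_448cl_h64.ClY
import Pool.Agent.W_448cl_h64.CmE
import Pool.Agent.W_448kr_h10.KrF
import Pool.Agent.W_448nv_h97.NvF
import Pool.Agent.W_448six_h74.SkI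
import Pool.Agent.W_448op_h53.OeE
import Pool.Agent.W_448op_h53.R3a
import Pool.Agent.W_448cu_h16.CuE
import Pool.Agent.W_448st0_h96.SzG

/-!
# Final assembly (MP_448cb3_co): what is left
-/

namespace Pool.Agent.GaussPoset.EK

set_option linter.unusedSectionVars false

open Finset Win St Polynomial Wd Win.W4

universe u

/-- THE INPUTS WHICH ARE LEFT -/
structure Left (P : Type u) [Fintype P] [PartialOrder P] [DecidableEq P] : Prop where
  no13 : ∀ r j : ℕ, j = 13 → CB P r j → No6 P j

variable {P : Type u} [Fintype P] [PartialOrder P] [DecidableEq P]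

/-- no element (C) of the level 7 -/
theorem hcc3 (P : Type u) [Fintype P] [PartialOrder P] [DecidableEq P] : HCC3 P :=
  fun r h => hcc3_nj P r h.nj

/-- STEP 0 from the inputs which are left -/
theorem Left.no6 (L : Left P) : HNo6 P := by
  have hC : HCCu P := hccu (hcc3 P)
  exact hno6_count hC (HTail_holds P)
    ⟨hnat P, hclosedq, hopen3q P, hring3 P, hfoldq, htwoq P, hsixq⟩
    ⟨hnatA P, hclosedA P, hfoldA P, hopen3A P, hring3A P, leaf_twoA P, leaf_sixA P, hcount⟩ L.no13

/-- THE THEOREM from the inputs which are left -/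
theorem distrib_left (hG : IsGaussian P) (hc : (SimpleGraph.hasse P).Connected) (L : Left P) :
    IsDistribLatticeOrder P :=
  distrib_of_inputs6 hG hc (hjoin10_of (W7.hfb14 P)) (hcc3 P) (HTail_holds P)
    ⟨L.no6, hnat P, hclosed, hopen3 P, hring3 P, hfoldv, htwo P⟩

end Pool.Agent.GaussPoset.EK
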