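import Pool.Agent.W_448st0_h96.SzY
import Pool.Agent.W_448n13_h16.NtB
import Pool.Agent.W_448n13_h53.NtW
import Pool.Agent.W_448n13_h22.NtD
import Pool.Agent.W_448cl_h64.CmH

/-!
# Final assembly (MP_448cb3_co): THE THEOREM
-/

namespace Pool.Agent.GaussPoset.EK

set_option linter.unusedSectionVars false

open Finset Win St Polynomial Wd Win.W4

universe u

variable {P : Type u} [Fintype P] [PartialOrder P] [DecidableEq P]

/-- the leaf `HClosedT` -/
theorem leaf_closedT (P : Type u) [Fintype P] [PartialOrder P] [DecidableEq P] : HClosedT P := by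
  intro r i K psi t m x c β lo hi e h13 h R B C S hm hD hu
  obtain ⟨hb, c0, c1, c2⟩ := hD
  subst hb
  have hn := h.nj
  have hi1 : 1 ≤ i := by omega
  have F : ClDL P r i t m x c lo hi e := ⟨hn, hi1, B, C, hm, hu, c0, c1, c2⟩
  have hs := NJ.small_dl hn (by omega) B c2
  have hQ : Qt i t = Qc i t := rfl
  obtain ⟨Y, V, hY⟩ := exists_YW P (i + 1)
  have hT : TT (i + 1) t = W4.Tv (i + 1) (Cx i t) :=
    (NJ.dl_parts hn (by omega) R hY B hm rfl c0 c1 c2).2
  rw [NJ.Ut_small hn hi1 R hs, hQ, hT]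
  rcases F.sum13 R S (by omega) with q | ⟨q1, q2⟩
  · exact Or.inl q
  · exact Or.inr ⟨by linarith, q2⟩

/-- no input is left -/
theorem left (P : Type u) [Fintype P] [PartialOrder P] [DecidableEq P] : Left P :=
  ⟨no6_thirteen (hccu (hcc3 P)) (HTail_holds P)
    ⟨hnat P, hclosedq, hopen3q P, hring3 P, hfoldq, htwoq P, hsixq⟩
    ⟨hnatT P, leaf_closedT P, hopen3T P, hring3T P, leaf_twoT P, leaf_sixT P⟩⟩

/-- EVERY CONNECTED FINITE GAUSSIAN POSET IS A DISTRIBUTIVE LATTICE -/
theorem distrib (hG : IsGaussian P) (hc : (SimpleGraph.hasse P).Connected) :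
    IsDistribLatticeOrder P :=
  distrib_left hG hc (left P)

end Pool.Agent.GaussPoset.EK
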